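import Pool.Agent.TH581.HH.Stm

/-!
Surface measure on a hyperplane in graph coordinates.
-/

set_option autoImplicit false

noncomputable section

open MeasureTheory Set
open scoped ENNReal NNReal Pointwise

namespace Pool.Agent.TH589.HH

open Pool.Agent.TH581.HH

lemma hg_zero {m : ℕ} (ν : E (m + 1)) (b : ℝ) (z : E m) :
    hg ν b z 0 = (b - ∑ i, ν i.succ * z i) / ν 0 := rfl

lemma hg_succ {m : ℕ} (ν : E (m + 1)) (b : ℝ) (z : E m) (i : Fin m) :
    hg ν b z i.succ = z i := rfl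

lemma pr_hg {m : ℕ} (ν : E (m + 1)) (b : ℝ) (z : E m) : pr (hg ν b z) = z := rfl

lemma inner_eq {m : ℕ} (ν x : E (m + 1)) :
    inner ℝ ν x = ν 0 * x 0 + ∑ i : Fin m, ν i.succ * x i.succ := by
  rw [PiLp.inner_apply, Fin.sum_univ_succ]
  simp [mul_comm]

lemma inner_hg {m : ℕ} (ν : E (m + 1)) (b : ℝ) (z : E m) (h0 : ν 0 ≠ 0) :
    inner ℝ ν (hg ν b z) = b := by
  rw [inner_eq, hg_zero]
  simp only [hg_succ]
  field_simp
  ring

lemma ext_of {m : ℕ} {x y : E (m + 1)} (h0 : x 0 = y 0) (h : ∀ i : Fin m, x i.succ = y i.succ) :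
    x = y := by
  ext i
  refine Fin.cases ?_ ?_ i
  · exact h0
  · exact h

lemma hg_pr {m : ℕ} (ν : E (m + 1)) (b : ℝ) (x : E (m + 1)) (h0 : ν 0 ≠ 0)
    (hx : inner ℝ ν x = b) : hg ν b (pr x) = x := by
  apply ext_of
  · rw [hg_zero]
    rw [inner_eq] at hx
    have e : ∀ i : Fin m, (pr x) i = x i.succ := fun i => rfl
    simp only [e]
    rw [← hx]
    field_simp
    ring
  · intro i
    rfl

lemma image_hg {m : ℕ} (ν : E (m + 1)) (b : ℝ) (h0 : ν 0 ≠ 0) (S : Set (E m)) :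
    hg ν b '' S = {x | pr x ∈ S ∧ inner ℝ ν x = b} := by
  ext x
  constructor
  · rintro ⟨z, hz, rfl⟩
    exact ⟨hz, inner_hg ν b z h0⟩
  · rintro ⟨h1, h2⟩
    exact ⟨pr x, h1, hg_pr ν b x h0 h2⟩

lemma meas_pr {m : ℕ} : Measurable (pr (m := m)) := lip_pr.continuous.measurable

lemma meas_inner {m : ℕ} (ν : E (m + 1)) : Measurable (fun x : E (m + 1) => inner ℝ ν x) := by
  have : Continuous (fun x : E (m + 1) => (inner ℝ ν x : ℝ)) := by fun_prop
  exact this.measurable

lemma meas_image_hg {m : ℕ} (ν : E (m + 1)) (b : ℝ) (h0 : ν 0 ≠ 0) {S : Set (E m)}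
    (hS : MeasurableSet S) : MeasurableSet (hg ν b '' S) := by
  rw [image_hg ν b h0]
  exact (meas_pr hS).inter (meas_inner ν (measurableSet_singleton b))

lemma cont_hg {m : ℕ} (ν : E (m + 1)) (b : ℝ) : Continuous (hg (m := m) ν b) := by
  unfold hg
  refine (PiLp.continuous_toLp 2 _).comp ?_
  refine continuous_pi fun i => ?_
  refine Fin.cases ?_ ?_ i
  · simp only [Fin.cons_zero]
    fun_prop
  · intro j
    simp only [Fin.cons_succ]
    fun_prop

/-- the images for different `b` are translates -/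
lemma mu_hg {m : ℕ} (ν : E (m + 1)) (b c : ℝ) (S : Set (E m)) :
    (μHE[m] : Measure (E (m + 1))) (hg ν c '' S) =
      (μHE[m] : Measure (E (m + 1))) (hg ν b '' S) := by
  set w : E (m + 1) := WithLp.toLp 2 (Fin.cons ((c - b) / ν 0) (fun _ => 0)) with hw
  have h1 : hg ν c '' S = (fun x => x + w) '' (hg ν b '' S) := by
    rw [image_image]
    refine image_congr' fun z => ?_
    apply ext_of
    · change (c - ∑ i, ν i.succ * z i) / ν 0 = (b - ∑ i, ν i.succ * z i) / ν 0 + (c - b) / ν 0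
      rw [← add_div]
      congr 1
      ring
    · intro i
      change z i = z i + 0
      rw [add_zero]
  rw [h1]
  exact (isometry_add_right w).euclideanHausdorffMeasure_image _

/-- slab over `B` -/
def Tb {m : ℕ} (ν : E (m + 1)) (b : ℝ) (B : Set (E m)) : Set (E (m + 1)) :=
  {x | pr x ∈ B ∧ inner ℝ ν x ∈ Icc b (b + 1)}

lemma meas_Tb {m : ℕ} (ν : E (m + 1)) (b : ℝ) {B : Set (E m)} (hB : MeasurableSet B) :
    MeasurableSet (Tb ν b B) :=
  (meas_pr hB).inter (meas_inner ν measurableSet_Icc)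

lemma vol_interval (a s b : ℝ) (ha : a ≠ 0) :
    volume {t : ℝ | a * t + s ∈ Icc b (b + 1)} = (ENNReal.ofReal |a|)⁻¹ := by
  have h1 : {t : ℝ | a * t + s ∈ Icc b (b + 1)} = (a * ·) ⁻¹' (Icc (b - s) (b + 1 - s)) := by
    ext t
    simp only [mem_setOf_eq, mem_Icc, mem_preimage]
    constructor
    · rintro ⟨h, h'⟩
      constructor <;> linarith
    · rintro ⟨h, h'⟩
      constructor <;> linarith
  rw [h1, Real.volume_preimage_mul_left ha, Real.volume_Icc]
  have h2 : b + 1 - s - (b - s) = 1 := by ring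
  rw [h2, ENNReal.ofReal_one, mul_one, abs_inv, ENNReal.ofReal_inv_of_pos (abs_pos.2 ha)]

lemma vol_Tb {m : ℕ} (ν : E (m + 1)) (b : ℝ) (h0 : ν 0 ≠ 0) {B : Set (E m)}
    (hB : MeasurableSet B) :
    volume (Tb ν b B) = (ENNReal.ofReal |ν 0|)⁻¹ * volume B := by
  have e1 := volume_preserving_piFinSuccAbove (fun _ : Fin (m + 1) => ℝ) 0
  have e2 := PiLp.volume_preserving_ofLp (Fin (m + 1))
  have e := e1.comp e2
  have e3 := PiLp.volume_preserving_toLp (Fin m)
  set A : Set (ℝ × (Fin m → ℝ)) := {p | (WithLp.toLp 2 p.2 : E m) ∈ B ∧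
    ν 0 * p.1 + ∑ i, ν i.succ * p.2 i ∈ Icc b (b + 1)} with hA
  have hAm : MeasurableSet A := by
    have h1 : MeasurableSet {p : ℝ × (Fin m → ℝ) | (WithLp.toLp 2 p.2 : E m) ∈ B} :=
      (e3.measurable.comp measurable_snd) hB
    have h2 : Measurable (fun p : ℝ × (Fin m → ℝ) => ν 0 * p.1 + ∑ i, ν i.succ * p.2 i) := by
      have : Continuous (fun p : ℝ × (Fin m → ℝ) => ν 0 * p.1 + ∑ i, ν i.succ * p.2 i) := by
        fun_prop
      exact this.measurable
    exact h1.inter (h2 measurableSet_Icc)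
  have hpre : Tb ν b B = (fun x : E (m + 1) =>
      (MeasurableEquiv.piFinSuccAbove (fun _ : Fin (m + 1) => ℝ) 0) (WithLp.ofLp x)) ⁻¹' A := by
    ext x
    unfold Tb
    rw [mem_setOf_eq, inner_eq]
    rfl
  rw [hpre]
  have h3 := e.measure_preimage hAm.nullMeasurableSet
  refine (show volume ((fun x : E (m + 1) =>
      (MeasurableEquiv.piFinSuccAbove (fun _ : Fin (m + 1) => ℝ) 0) (WithLp.ofLp x)) ⁻¹' A) =
        volume A from h3).trans ?_
  rw [Measure.volume_eq_prod, Measure.prod_apply_symm hAm]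
  have h4 : ∀ z : Fin m → ℝ, volume ((fun t => (t, z)) ⁻¹' A) =
      (WithLp.toLp 2 ⁻¹' B).indicator (fun _ => (ENNReal.ofReal |ν 0|)⁻¹) z := by
    intro z
    by_cases hz : z ∈ (WithLp.toLp 2 : (Fin m → ℝ) → E m) ⁻¹' B
    · rw [indicator_of_mem hz, ← vol_interval (ν 0) (∑ i, ν i.succ * z i) b h0]
      congr 1
      ext t
      exact ⟨fun h => h.2, fun h => ⟨hz, h⟩⟩
    · rw [indicator_of_notMem hz]
      have : (fun t => (t, z)) ⁻¹' A = ∅ := by
        rw [Set.eq_empty_iff_forall_notMem]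
        intro t ht
        exact hz ht.1
      rw [this, measure_empty]
  simp_rw [h4]
  rw [lintegral_indicator (e3.measurable hB), setLIntegral_const,
    e3.measure_preimage hB.nullMeasurableSet]

lemma vol_Tb' {m : ℕ} (ν : E (m + 1)) (b : ℝ) (hν : ‖ν‖ = 1) (h0 : ν 0 ≠ 0) {B : Set (E m)}
    (hB : MeasurableSet B) :
    volume (Tb ν b B) = (μHE[m] : Measure (E (m + 1))) (hg ν b '' B) := by
  have hν0 : ν ≠ 0 := by
    rintro rfl
    simp at hν
  have hk := EuclideanGeometry.euclideanHausdorffMeasure_eq_lintegral (P := E (m + 1)) (0 : E (m + 1))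
    hν0 (meas_Tb ν b hB)
  have hf : Module.finrank ℝ (E (m + 1)) = m + 1 := by simp
  rw [hf] at hk
  rw [EuclideanSpace.euclideanHausdorffMeasure_eq_volume] at hk
  rw [hk]
  have h1 : ‖ν‖ₑ = 1 := by
    rw [← ofReal_norm_eq_enorm, hν, ENNReal.ofReal_one]
  rw [h1, one_mul]
  have h2 : ∀ x : ℝ, (μHE[m + 1 - 1] : Measure (E (m + 1)))
      (Tb ν b B ∩ AffineSubspace.mk' (x • ν +ᵥ (0 : E (m + 1))) (Submodule.span ℝ {ν})ᗮ) =
      (Icc b (b + 1)).indicator (fun _ => (μHE[m] : Measure (E (m + 1))) (hg ν b '' B)) x := by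
    intro x
    have h3 : ∀ y : E (m + 1), y ∈ (AffineSubspace.mk' (x • ν +ᵥ (0 : E (m + 1)))
        (Submodule.span ℝ {ν})ᗮ : Set (E (m + 1))) ↔ inner ℝ ν y = x := by
      intro y
      rw [SetLike.mem_coe, AffineSubspace.mem_mk', Submodule.mem_orthogonal_singleton_iff_inner_right]
      simp only [vsub_eq_sub, vadd_eq_add, add_zero, inner_sub_right, inner_smul_right]
      rw [real_inner_self_eq_norm_sq, hν]
      constructor
      · intro h; linarith
      · intro h; linarith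
    by_cases hx : x ∈ Icc b (b + 1)
    · rw [indicator_of_mem hx, ← mu_hg ν b x B, Nat.add_sub_cancel]
      congr 1
      rw [image_hg ν x h0]
      ext y
      constructor
      · rintro ⟨h4, h5⟩
        exact ⟨h4.1, (h3 y).1 h5⟩
      · rintro ⟨h4, h5⟩
        refine ⟨⟨h4, ?_⟩, (h3 y).2 h5⟩
        rw [h5]
        exact hx
    · rw [indicator_of_notMem hx]
      have : Tb ν b B ∩ (AffineSubspace.mk' (x • ν +ᵥ (0 : E (m + 1)))
        (Submodule.span ℝ {ν})ᗮ : Set (E (m + 1))) = ∅ := by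
        rw [Set.eq_empty_iff_forall_notMem]
        rintro y ⟨h4, h5⟩
        apply hx
        rw [← (h3 y).1 h5]
        exact h4.2
      rw [this, measure_empty]
  rw [lintegral_congr h2, lintegral_indicator measurableSet_Icc, setLIntegral_const,
    Real.volume_Icc]
  simp

lemma mu_image {m : ℕ} (ν : E (m + 1)) (b : ℝ) (hν : ‖ν‖ = 1) (h0 : ν 0 ≠ 0) {B : Set (E m)}
    (hB : MeasurableSet B) :
    ENNReal.ofReal |ν 0| * (μHE[m] : Measure (E (m + 1))) (hg ν b '' B) = volume B := by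
  rw [← vol_Tb' ν b hν h0 hB, vol_Tb ν b h0 hB, ← mul_assoc, ENNReal.mul_inv_cancel, one_mul]
  · rw [ne_eq, ENNReal.ofReal_eq_zero, not_le]
    exact abs_pos.2 h0
  · exact ENNReal.ofReal_ne_top

theorem t_fac : S_FAC := by
  intro m ν b hν h0 S hS f hf
  have hm : Measurable (hg (m := m) ν b) := (cont_hg ν b).measurable
  have h1 : ENNReal.ofReal |ν 0| • (μHE[m] : Measure (E (m + 1))).restrict (hg ν b '' S) =
      Measure.map (hg ν b) (volume.restrict S) := by
    refine Measure.ext fun B hB => ?_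
    rw [Measure.smul_apply, Measure.restrict_apply hB, Measure.map_apply hm hB,
      Measure.restrict_apply (hm hB), smul_eq_mul]
    have h2 : B ∩ hg ν b '' S = hg ν b '' (hg ν b ⁻¹' B ∩ S) := by
      ext x
      constructor
      · rintro ⟨h3, z, hz, rfl⟩
        exact ⟨z, ⟨h3, hz⟩, rfl⟩
      · rintro ⟨z, ⟨h3, hz⟩, rfl⟩
        exact ⟨h3, z, hz, rfl⟩
    rw [h2, mu_image ν b hν h0 ((hm hB).inter hS)]
  rw [← smul_eq_mul, ← lintegral_smul_measure, h1, lintegral_map hf hm]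

end Pool.Agent.TH589.HH
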